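import Pool.Agent.Lib.MP_c7b0ca_al.Defs

/-!
The verbal subgroups `F²` and `F''(F')^p` of the free group, and the elementary facts about them
that are needed for MP_c7b0ca_al.
-/

namespace Pool.Agent.Lib.MP_c7b0ca_h10

open Pool.Agent.Lib.MP_c7b0ca_al
open scoped commutatorElement

/-- `F²`: the subgroup of the free group `F` on `k` letters generated by all squares. -/
def squares (k : ℕ) : Subgroup (FreeGroup (Fin k)) :=
  Subgroup.closure {z | ∃ a : FreeGroup (Fin k), z = a ^ 2}

/-- `F''(F')^p`: the subgroup of the free group `F` on `k` letters generated by all commutators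
`[a, b]` and all powers `a ^ p` with `a, b` in `F'`. -/
def layer (k p : ℕ) : Subgroup (FreeGroup (Fin k)) :=
  Subgroup.closure
    ({z | ∃ a ∈ commutator (FreeGroup (Fin k)), ∃ b ∈ commutator (FreeGroup (Fin k)),
        z = ⁅a, b⁆} ∪
      {z | ∃ a ∈ commutator (FreeGroup (Fin k)), z = a ^ p})

theorem sq_mem_squares {k : ℕ} (a : FreeGroup (Fin k)) : a ^ 2 ∈ squares k :=
  Subgroup.subset_closure ⟨a, rfl⟩

theorem comm_mem_squares {k : ℕ} (a b : FreeGroup (Fin k)) : ⁅a, b⁆ ∈ squares k := by
  have h : ⁅a, b⁆ = a ^ 2 * (a⁻¹ * b) ^ 2 * (b ^ 2)⁻¹ := by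
    simp only [commutatorElement_def, pow_two]
    group
  rw [h]
  exact (squares k).mul_mem ((squares k).mul_mem (sq_mem_squares a) (sq_mem_squares _))
    ((squares k).inv_mem (sq_mem_squares b))

theorem commutator_le_squares (k : ℕ) : commutator (FreeGroup (Fin k)) ≤ squares k := by
  rw [commutator_def, Subgroup.commutator_le]
  intro a _ b _
  exact comm_mem_squares a b

theorem layer_le_squares (k p : ℕ) : layer k p ≤ squares k := by
  refine le_trans ?_ (commutator_le_squares k)
  rw [layer, Subgroup.closure_le]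
  rintro z (⟨a, ha, b, hb, rfl⟩ | ⟨a, ha, rfl⟩)
  · have h : ⁅a, b⁆ ∈ ⁅(⊤ : Subgroup (FreeGroup (Fin k))), ⊤⁆ :=
      Subgroup.commutator_mem_commutator (Subgroup.mem_top a) (Subgroup.mem_top b)
    rw [← commutator_def] at h
    exact h
  · exact (commutator (FreeGroup (Fin k))).pow_mem ha p

instance normal_squares (k : ℕ) : (squares k).Normal := by
  refine ⟨fun n hn g => ?_⟩
  have h : g * n * g⁻¹ = ⁅g, n⁆ * n := by
    simp [commutatorElement_def]
  rw [h]
  exact (squares k).mul_mem (comm_mem_squares g n) hn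

/-- A word all of whose exponent sums are even is a product of squares. -/
theorem mem_squares_of_even {k : ℕ} (v : FreeGroup (Fin k))
    (hv : ∀ i : Fin k, Even (exponentSum i v)) : v ∈ squares k := by
  classical
  -- `w ≡ ∏ x_i ^ (e_i w)` modulo `F²`; the quotient is commutative
  let Q := FreeGroup (Fin k) ⧸ squares k
  have hcomm : ∀ a b : Q, a * b = b * a := by
    intro a b
    obtain ⟨a, rfl⟩ := QuotientGroup.mk_surjective a
    obtain ⟨b, rfl⟩ := QuotientGroup.mk_surjective b
    rw [← QuotientGroup.mk_mul, ← QuotientGroup.mk_mul, QuotientGroup.eq]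
    have h : (a * b)⁻¹ * (b * a) = ⁅b⁻¹, a⁻¹⁆ := by
      simp [commutatorElement_def, mul_assoc]
    rw [h]
    exact comm_mem_squares _ _
  let _ : CommGroup Q := { (inferInstance : Group Q) with mul_comm := hcomm }
  have hsq : ∀ a : Q, a ^ 2 = 1 := by
    intro a
    obtain ⟨a, rfl⟩ := QuotientGroup.mk_surjective a
    have h : ((a ^ 2 : FreeGroup (Fin k)) : Q) = 1 :=
      (QuotientGroup.eq_one_iff _).2 (sq_mem_squares a)
    exact h
  -- the two homomorphisms
  let e : Fin k → FreeGroup (Fin k) →* Multiplicative ℤ := fun i =>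
    FreeGroup.lift (fun j => if j = i then Multiplicative.ofAdd (1 : ℤ) else 1)
  let φ : FreeGroup (Fin k) →* Q := QuotientGroup.mk' (squares k)
  let ψ : FreeGroup (Fin k) →* Q :=
    ∏ i : Fin k, (zpowersHom Q (φ (FreeGroup.of i))).comp (e i)
  have hφψ : φ = ψ := by
    refine FreeGroup.ext_hom _ _ fun j => ?_
    simp only [ψ, MonoidHom.finsetProd_apply, MonoidHom.comp_apply, e, FreeGroup.lift_apply_of]
    rw [Finset.prod_eq_single j]
    · simp
    · intro i _ hij
      rw [if_neg (fun h => hij h.symm)]
      simp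
    · intro h
      exact absurd (Finset.mem_univ j) h
  have h1 : φ v = 1 := by
    rw [hφψ]
    simp only [ψ, MonoidHom.finsetProd_apply, MonoidHom.comp_apply]
    refine Finset.prod_eq_one fun i _ => ?_
    obtain ⟨m, hm⟩ := hv i
    have h2 : e i v = Multiplicative.ofAdd (m + m) := by
      rw [← hm]; rfl
    rw [h2, zpowersHom_apply]
    have h3 : (φ (FreeGroup.of i)) ^ (m + m) = ((φ (FreeGroup.of i)) ^ 2) ^ m := by
      rw [← zpow_natCast, ← zpow_mul]
      congr 1
      push_cast
      ring
    rw [toAdd_ofAdd, h3, hsq, one_zpow]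
  exact (QuotientGroup.eq_one_iff v).1 h1

theorem exists_odd_of_notMem {k : ℕ} (v : FreeGroup (Fin k)) (hv : v ∉ squares k) :
    ∃ i : Fin k, Odd (exponentSum i v) := by
  by_contra h
  push Not at h
  exact hv (mem_squares_of_even v fun i => Int.not_odd_iff_even.1 (h i))

/-- Conversely exponent sums of products of squares are even. -/
theorem even_of_mem_squares {k : ℕ} (v : FreeGroup (Fin k)) (hv : v ∈ squares k) (i : Fin k) :
    Even (exponentSum i v) := by
  unfold squares at hv
  induction hv using Subgroup.closure_induction with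
  | mem x hx =>
    obtain ⟨a, rfl⟩ := hx
    refine ⟨exponentSum i a, ?_⟩
    simp only [exponentSum, map_pow, toAdd_pow]
    ring
  | one => simp [exponentSum]
  | mul x y _ _ hx hy =>
    have : exponentSum i (x * y) = exponentSum i x + exponentSum i y := by
      simp [exponentSum]
    rw [this]
    exact hx.add hy
  | inv x _ hx =>
    have : exponentSum i x⁻¹ = - exponentSum i x := by
      simp [exponentSum]
    rw [this]
    exact hx.neg

end Pool.Agent.Lib.MP_c7b0ca_h10
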